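import Pool.Agent.HMT.Stmts

/-!
# Row COC of squad HMT
-/

namespace Pool.Agent.HMT.H39

theorem coc (h : MaiStmt) : CocStmt := by
  intro P hP
  refine h P 1 0 (Or.inl ?_)
  intro V W _ _ G H _ _ hc _ he _
  exact hP V W G H hc he

end Pool.Agent.HMT.H39
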